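import Pool.Agent.H802.TA.Model
import Pool.Agent.H802.TA.P1
import Pool.Agent.H802.TA.P2
import Pool.Agent.H802.TA.P3
import Pool.Agent.H802.TA.P4
import Pool.Agent.H802.TA.P5

/-! MP_64c6ca_gt, question Q1 (answer: yes). Every small category is equivalent, in the Thomason
model structure, to the category of weak equivalences of a partial model category. -/

universe u

open CategoryTheory Limits

namespace Pool.Agent.Results.MP_64c6ca_gt.AllHomotopyTypes

open Pool.Agent.H802.TA

/-- Every category `D` in the universe `Type (u+1)` is joined, by a finite zigzag of functors
whose nerves are weak homotopy equivalences, to the category of weak equivalences of some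
partial model category in the same universe. -/
theorem result (D : Type (u + 1)) [SmallCategory D] :
    ∃ (M : Type (u + 1)) (_ : SmallCategory M) (P : PartialModel M),
      ThEquiv (Cat.of D) (Cat.of (WideSubcategory P.W)) :=
  main ⟨stm2a, stm2b, thmA stm1a stm2a (stm3 stm1b stm2a stm2b) stm4⟩ D

end Pool.Agent.Results.MP_64c6ca_gt.AllHomotopyTypes
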